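import Pool.Agent.MP_54e0c2_lc.Final
import Pool.Agent.Lib.PCP.Final

namespace Pool.Agent.Results.MP_54e0c2_lc.ApproxHard

open Pool.Agent.MP_54e0c2_lc

/-- **Result.** For some constant `r > 0` the `r`-approximation problem for the complex structured
singular value is NP-hard. -/
theorem result : ∃ r : ℝ, 0 < r ∧ ApproxNPHard r := by
  obtain ⟨e, he, F, hF, hne, hyes, hno⟩ := Pool.Agent.Lib.PCP.pcp_core
  refine hard_of_core he hF hne hyes fun φ hφ τ => ?_
  refine (hno φ hφ τ).trans (le_of_eq ?_)
  unfold nfalse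
  congr 2

end Pool.Agent.Results.MP_54e0c2_lc.ApproxHard
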